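import Pool.Agent.Q211.TP.Zer

/-!
# A non-realcompact space whose z-ultrafilters with the countable intersection property are fixed

The model is a symmetric extension of permutation type. The atoms are the pairs in `ℕ × ℤ`, the
group consists of the sequences of translations of the blocks `{n} × ℤ`, and the supports are the
finite unions of blocks. The space `X` is a linearly ordered space: the nodes `0, 1, 2, …`, and
between the nodes `n` and `n + 1` the block `n` in its natural order. A `z`-ultrafilter `F` decides
the clopen sets `{x | a ≤ x}` for the atoms `a`. If `F` contains all of them, then it contains the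
final segment beyond every node, since this segment is a countable intersection of clopen sets and
hence a zero-set, and `F` does not have the countable intersection property. Otherwise the cut
defined by `F` is given by a point, and `F` is fixed. Every continuous real-valued function on `X`
has a support that consists of the first `k` blocks, so it is constant beyond the node `k`, and
therefore `X` is not realcompact.
-/

set_option autoImplicit false

namespace Pool.Agent.Results.MP_05264e_lc.FixedNotRealcompact

open Pool.Agent.W868 Pool.Agent.W868.PName Pool.Agent.Q211.SY Pool.Agent.Q211.FS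
open Pool.Agent.Q211.TP

/-- There is a countable transitive model of ZF with a Tychonoff space in which every
`z`-ultrafilter with the countable intersection property is fixed, but which is not realcompact. -/
theorem result : ∃ M : Set ZFSet.{0}, M.Countable ∧ IsZF M ∧
    ∃ R ∈ M, ∃ σ ∈ M, IsReals M R σ ∧
    ∃ X ∈ M, ∃ τ ∈ M, IsTopIn M X τ ∧ TychIn M R σ X τ ∧
      (∀ F, IsUltra M (IsZeroSet M R σ X τ) F → HasCIP M F → Fixed F) ∧
      ¬ ECompactIn M R σ X τ := by
  obtain ⟨M, pt, c, X, K, R, BL, h⟩ := exists_chn ℤ int_homog ∅ Set.countable_empty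
    (fun z hz => absurd hz (Set.notMem_empty z))
  have hM := h.zf
  have hB := h.exists_B
  obtain ⟨RR, hRR, σ, hσ, hRσ⟩ := exists_line hM h.qc h.lq
  obtain ⟨i, hi⟩ := goodE_real hM h.qc h.lq hRR hσ hRσ
  obtain ⟨τ, hτM, hτ⟩ := exists_gen hM hB.1 h.KM h.RM
  have htop := hτ.top hM hB.1
  exact ⟨M, h.cnt, hM, RR, hRR, σ, hσ, hRσ, _, hB.1, τ, hτM, htop,
    tych_of_zeroDim hM h.qc h.lq hRR hRσ hB.1 hτM htop
      (hτ.zeroDim hM hB.1 h.KM h.RM (h.hsep hB)),
    fun F hF hcip => h.ultra_fixed hB hτM hτ
      (fam_zero hM h.qc h.lq hRR hσ hRσ hB.1 hτM h.KM h.RM hτ ⟨i, hi⟩)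
      (fun n T hT => zero_of_cdelta hM h.qc h.lq hRR hσ hRσ hB.1 hτM h.KM h.RM hτ
        (h.fin_cdelta hB hτM hτ n hT)) hF hcip,
    h.not_ecompact hB hτM hτ (flat_real hRσ) hi⟩

end Pool.Agent.Results.MP_05264e_lc.FixedNotRealcompact
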